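import Mathlib

set_option autoImplicit false

open Finset

namespace Pool.Agent.N465.CS

/-- Cut positions `K_j = z_j + j` for `j < N`, and `K_j = n` for `j ≥ N`. -/
def Kz (n N : ℕ) (z : Fin N → ℤ) (j : ℕ) : ℤ := if h : j < N then z ⟨j, h⟩ + j else n

/-- The cut positions start at `0` and are strictly increasing up to `K_N = n`. -/
def Valid (n N : ℕ) (z : Fin N → ℤ) : Prop :=
  Kz n N z 0 = 0 ∧ ∀ j < N, Kz n N z j < Kz n N z (j + 1)

/-- `c` is the colouring of `Fin n` by the intervals `[K_i, K_{i+1})`. -/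
def IsCol (n N : ℕ) (z : Fin N → ℤ) (c : Fin n → Fin N) : Prop :=
  ∀ v : Fin n, Kz n N z (c v : ℕ) ≤ ((v : ℕ) : ℤ) ∧ ((v : ℕ) : ℤ) < Kz n N z ((c v : ℕ) + 1)

lemma Kz_N (n N : ℕ) (z : Fin N → ℤ) : Kz n N z N = n := by
  unfold Kz; simp

lemma Kz_le {n N : ℕ} {z : Fin N → ℤ} (hz : Valid n N z) :
    ∀ i j : ℕ, i ≤ j → j ≤ N → Kz n N z i ≤ Kz n N z j := by
  intro i j hij
  induction j, hij using Nat.le_induction with
  | base => intro _; exact le_refl _
  | succ j hj ih =>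
    intro h
    exact le_trans (ih (by omega)) (hz.2 j (by omega)).le

lemma exists_col {n N : ℕ} {z : Fin N → ℤ} (hz : Valid n N z) :
    ∃ c : Fin n → Fin N, IsCol n N z c := by
  classical
  have : ∀ v : Fin n, ∃ i : Fin N, Kz n N z (i : ℕ) ≤ ((v : ℕ) : ℤ) ∧
      ((v : ℕ) : ℤ) < Kz n N z ((i : ℕ) + 1) := by
    intro v
    have hex : ∃ j : ℕ, ((v : ℕ) : ℤ) < Kz n N z j := ⟨N, by
      rw [Kz_N]; exact_mod_cast v.2⟩
    have h1 := Nat.find_spec hex
    have h2 : Nat.find hex ≤ N := Nat.find_min' hex (by rw [Kz_N]; exact_mod_cast v.2)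
    have h3 : Nat.find hex ≠ 0 := by
      intro h0
      rw [h0, hz.1] at h1
      omega
    obtain ⟨j, hj⟩ := Nat.exists_eq_succ_of_ne_zero h3
    have h4 : ¬ ((v : ℕ) : ℤ) < Kz n N z j := Nat.find_min hex (by omega)
    refine ⟨⟨j, by omega⟩, ?_, ?_⟩
    · exact not_lt.1 h4
    · rw [hj] at h1; exact h1
  choose c hc using this
  exact ⟨c, hc⟩

lemma idx_unique {n N : ℕ} {z : Fin N → ℤ} (hz : Valid n N z) {v : ℤ} {i j : ℕ}
    (hi : i < N) (hj : j < N) (h1 : Kz n N z i ≤ v) (h2 : v < Kz n N z (i + 1))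
    (h3 : Kz n N z j ≤ v) (h4 : v < Kz n N z (j + 1)) : i = j := by
  rcases lt_trichotomy i j with h | h | h
  · have := Kz_le hz (i + 1) j (by omega) (by omega)
    omega
  · exact h
  · have := Kz_le hz (j + 1) i (by omega) (by omega)
    omega

/-- The combinatorial heart: two interval partitions whose cuts differ by at most one. -/
theorem comb {n N k : ℕ} {z z' : Fin N → ℤ} (hz : Valid n N z)
    (hle : ∀ j, Kz n N z j ≤ Kz n N z' j) (hle' : ∀ j, Kz n N z' j ≤ Kz n N z j + 1)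
    {c c' : Fin n → Fin N} (hc : IsCol n N z c) (hc' : IsCol n N z' c')
    {A B : Finset (Fin n)} (hAB : k ≤ (A ∩ B).card) (hk : (B.image c').card ≤ k)
    (hP : ∀ i ∈ B.image c', 2 ≤ Kz n N z' ((i : ℕ) + 1) - Kz n N z' (i : ℕ) → i ∉ A.image c) :
    ∀ i ∈ B.image c', 2 ≤ Kz n N z' ((i : ℕ) + 1) - Kz n N z' (i : ℕ) →
      ∃ j ∈ A.image c, (j : ℕ) = (i : ℕ) + 1 := by
  classical
  intro i1 hi1 hi1'
  by_contra hQ
  push Not at hQ
  have key : ∀ v ∈ A ∩ B, 2 ≤ Kz n N z' ((c' v : ℕ) + 1) - Kz n N z' (c' v : ℕ) →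
      ((v : ℕ) : ℤ) = Kz n N z ((c' v : ℕ) + 1) := by
    intro v hv hbig
    have hvA := (Finset.mem_inter.1 hv).1
    have hvB := (Finset.mem_inter.1 hv).2
    have h1 := hP (c' v) (Finset.mem_image_of_mem _ hvB) hbig
    by_contra hne
    apply h1
    have hv1 := hc' v
    have hv2 := hc v
    have e1 := hle (c' v : ℕ)
    have e2 := hle' ((c' v : ℕ) + 1)
    have : (c v : ℕ) = (c' v : ℕ) := by
      refine idx_unique hz (c v).2 (c' v).2 hv2.1 hv2.2 (by omega) (by omega)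
    have h2 : c v = c' v := Fin.ext this
    rw [← h2]; exact Finset.mem_image_of_mem _ hvA
  have hinj : Set.InjOn c' (A ∩ B : Finset (Fin n)) := by
    intro v hv w hw hvw
    have hv' : v ∈ A ∩ B := hv
    have hw' : w ∈ A ∩ B := hw
    by_cases hbig : 2 ≤ Kz n N z' ((c' v : ℕ) + 1) - Kz n N z' (c' v : ℕ)
    · have h1 := key v hv' hbig
      have h2 := key w hw' (by rw [← hvw]; exact hbig)
      rw [← hvw] at h2
      have : ((v : ℕ) : ℤ) = (w : ℕ) := by rw [h1, h2]
      exact Fin.ext (by exact_mod_cast this)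
    · have h1 := hc' v
      have h2 := hc' w
      rw [← hvw] at h2
      have : ((v : ℕ) : ℤ) = (w : ℕ) := by omega
      exact Fin.ext (by exact_mod_cast this)
  have hsub : (A ∩ B).image c' ⊆ (B.image c').erase i1 := by
    intro i hi
    obtain ⟨v, hv, rfl⟩ := Finset.mem_image.1 hi
    have hvB := (Finset.mem_inter.1 hv).2
    refine Finset.mem_erase.2 ⟨?_, Finset.mem_image_of_mem _ hvB⟩
    intro heq
    have h1 := key v hv (by rw [heq]; exact hi1')
    rw [heq] at h1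
    have hlt : (i1 : ℕ) + 1 < N := by
      by_contra hge
      have hN : (i1 : ℕ) + 1 = N := by have := i1.2; omega
      rw [hN, Kz_N] at h1
      have := v.2
      omega
    have hv2 := hc v
    have hcv : (c v : ℕ) = (i1 : ℕ) + 1 := by
      refine idx_unique hz (c v).2 hlt hv2.1 hv2.2 (by omega) ?_
      have := hz.2 ((i1 : ℕ) + 1) hlt
      omega
    exact hQ (c v) (Finset.mem_image_of_mem _ (Finset.mem_inter.1 hv).1) hcv
  have h3 := Finset.card_le_card hsub
  rw [Finset.card_image_of_injOn hinj, Finset.card_erase_of_mem hi1] at h3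
  have h4 : 0 < (B.image c').card := Finset.card_pos.2 ⟨i1, hi1⟩
  omega

end Pool.Agent.N465.CS
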