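import Mathlib
import Pool.Agent.Helper133.Brouwer

set_option autoImplicit false

open Finset MeasureTheory

namespace Pool.Agent.N465.CS

/-- A bounded function of the integer vector `⌊y + u⌋`, averaged over `u ∈ (0,1)`, depends
continuously on `y`. -/
lemma continuous_avg {N : ℕ} (g : (Fin N → ℤ) → ℝ) (hg : ∀ z, |g z| ≤ 1) :
    Continuous (fun y : Fin N → ℝ => ∫ u in (0:ℝ)..1, g (fun j => ⌊y j + u⌋)) := by
  rw [continuous_iff_continuousAt]
  intro y0
  have hmeas : ∀ y : Fin N → ℝ, Measurable (fun u : ℝ => g (fun j => ⌊y j + u⌋)) := by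
    intro y
    have h1 : Measurable (fun u : ℝ => (fun j => ⌊y j + u⌋ : Fin N → ℤ)) := by
      refine measurable_pi_lambda _ (fun j => ?_)
      exact Int.measurable_floor.comp (measurable_const.add measurable_id)
    exact (measurable_of_countable g).comp h1
  refine intervalIntegral.continuousAt_of_dominated_interval (bound := fun _ => (1:ℝ)) ?_ ?_ ?_ ?_
  · exact Filter.Eventually.of_forall (fun y => (hmeas y).aestronglyMeasurable)
  · refine Filter.Eventually.of_forall (fun y => ?_)
    refine Filter.Eventually.of_forall (fun u _ => ?_)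
    rw [Real.norm_eq_abs]; exact hg _
  · exact intervalIntegrable_const
  · -- a.e. u avoids the countable set where some y0 j + u is an integer
    have hc : (⋃ j : Fin N, ⋃ m : ℤ, {((m : ℝ) - y0 j)}).Countable := by
      refine Set.countable_iUnion (fun j => Set.countable_iUnion (fun m => Set.countable_singleton _))
    have h0 : ∀ᵐ u : ℝ ∂volume, u ∉ (⋃ j : Fin N, ⋃ m : ℤ, {((m : ℝ) - y0 j)}) := by
      exact compl_mem_ae_iff.2 (hc.measure_zero volume)
    filter_upwards [h0] with u hu _
    have hu' : ∀ j : Fin N, ∀ m : ℤ, y0 j + u ≠ m := by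
      intro j m hm
      apply hu
      simp only [Set.mem_iUnion, Set.mem_singleton_iff]
      exact ⟨j, m, by linarith⟩
    have hev : ∀ᶠ y in nhds y0, (fun j => ⌊y j + u⌋ : Fin N → ℤ) = (fun j => ⌊y0 j + u⌋) := by
      have : ∀ j : Fin N, ∀ᶠ y in nhds y0, ⌊y j + u⌋ = ⌊y0 j + u⌋ := by
        intro j
        set z := ⌊y0 j + u⌋ with hz
        have hz1 : (z:ℝ) < y0 j + u := lt_of_le_of_ne (Int.floor_le _) (fun h => hu' j z h.symm)
        have hz2 : y0 j + u < z + 1 := Int.lt_floor_add_one _
        have hcont : Continuous (fun y : Fin N → ℝ => y j + u) := by fun_prop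
        have e1 : ∀ᶠ y in nhds y0, (z:ℝ) < y j + u := hcont.continuousAt.eventually (lt_mem_nhds hz1)
        have e2 : ∀ᶠ y in nhds y0, y j + u < (z:ℝ) + 1 := hcont.continuousAt.eventually (gt_mem_nhds hz2)
        filter_upwards [e1, e2] with y h1 h2
        rw [Int.floor_eq_iff]
        exact ⟨h1.le, h2⟩
      have h2 := Filter.eventually_all.2 this
      filter_upwards [h2] with y hy
      funext j; exact hy j
    refine ContinuousAt.congr (continuousAt_const (y := g (fun j => ⌊y0 j + u⌋))) ?_
    filter_upwards [hev] with y hy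
    rw [hy]

/-- The retraction of `ℝ^N` onto the standard simplex used below. -/
noncomputable def ret {N : ℕ} (x : Fin N → ℝ) (i : Fin N) : ℝ :=
  (max (x i) 0 + max 0 (1 - ∑ j, max (x j) 0)) /
    (∑ l, (max (x l) 0 + max 0 (1 - ∑ j, max (x j) 0)))

lemma ret_den {N : ℕ} (hN : 0 < N) (x : Fin N → ℝ) :
    1 ≤ ∑ l, (max (x l) 0 + max 0 (1 - ∑ j, max (x j) 0)) := by
  rw [Finset.sum_add_distrib]
  simp only [Finset.sum_const, Finset.card_univ, Fintype.card_fin, nsmul_eq_mul]
  set s := ∑ j, max (x j) 0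
  have hN' : (1:ℝ) ≤ N := by exact_mod_cast hN
  rcases le_or_gt 1 s with h | h
  · have : max 0 (1 - s) = 0 := max_eq_left (by linarith)
    rw [this]; linarith
  · have : max 0 (1 - s) = 1 - s := max_eq_right (by linarith)
    rw [this]; nlinarith

lemma ret_nonneg {N : ℕ} (hN : 0 < N) (x : Fin N → ℝ) (i : Fin N) : 0 ≤ ret x i := by
  unfold ret
  apply div_nonneg
  · exact add_nonneg (le_max_right _ _) (le_max_left _ _)
  · linarith [ret_den hN x]

lemma ret_sum {N : ℕ} (hN : 0 < N) (x : Fin N → ℝ) : ∑ i, ret x i = 1 := by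
  unfold ret
  rw [← Finset.sum_div]
  exact div_self (by linarith [ret_den hN x])

lemma ret_eq {N : ℕ} (x : Fin N → ℝ) (h0 : ∀ i, 0 ≤ x i) (h1 : ∑ i, x i = 1) : ret x = x := by
  funext i
  unfold ret
  have hm : ∀ j, max (x j) 0 = x j := fun j => max_eq_left (h0 j)
  simp only [hm, h1, sub_self, max_self, add_zero, div_one]

lemma continuous_ret {N : ℕ} (hN : 0 < N) : Continuous (ret : (Fin N → ℝ) → (Fin N → ℝ)) := by
  refine continuous_pi (fun i => ?_)
  unfold ret
  refine Continuous.div ?_ ?_ ?_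
  · fun_prop
  · fun_prop
  · intro x; linarith [ret_den hN x]

/-- KKMS-type fixed point statement. -/
theorem exists_balanced {N : ℕ} (hN : 0 < N) (B : (Fin N → ℝ) → Fin N → ℝ)
    (hB : Continuous B)
    (hsum : ∀ p : Fin N → ℝ, (∀ i, 0 ≤ p i) → ∑ i, p i = 1 → ∑ i, B p i = 1)
    (hbd : ∀ p : Fin N → ℝ, (∀ i, 0 ≤ p i) → ∑ i, p i = 1 → ∀ i, p i = 0 → B p i = 0) :
    ∃ p : Fin N → ℝ, (∀ i, 0 ≤ p i) ∧ ∑ i, p i = 1 ∧ ∀ i, B p i = 1 / N := by
  classical
  have hN' : (0:ℝ) < N := by exact_mod_cast hN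
  set S : (Fin N → ℝ) → ℝ := fun p => ∑ j, max 0 (1 / N - B p j) with hS
  have hS0 : ∀ p, 0 ≤ S p := fun p => Finset.sum_nonneg (fun j _ => le_max_left _ _)
  set G : (Fin N → ℝ) → (Fin N → ℝ) := fun p i => (p i + max 0 (1 / N - B p i)) / (1 + S p) with hG
  have hBi : ∀ i, Continuous (fun p => B p i) := fun i => (continuous_apply i).comp hB
  have hScont : Continuous S := by
    refine continuous_finsetSum _ (fun j _ => ?_)
    exact continuous_const.max (continuous_const.sub (hBi j))
  have hGcont : Continuous G := by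
    refine continuous_pi (fun i => ?_)
    refine Continuous.div ?_ (continuous_const.add hScont) (fun p => by linarith [hS0 p])
    exact (continuous_apply i).add (continuous_const.max (continuous_const.sub (hBi i)))
  have hG0 : ∀ p : Fin N → ℝ, (∀ i, 0 ≤ p i) → ∀ i, 0 ≤ G p i := by
    intro p hp i
    exact div_nonneg (add_nonneg (hp i) (le_max_left _ _)) (by linarith [hS0 p])
  have hG1 : ∀ p : Fin N → ℝ, ∑ i, p i = 1 → ∑ i, G p i = 1 := by
    intro p hp
    simp only [hG]
    rw [← Finset.sum_div, Finset.sum_add_distrib, hp]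
    exact div_self (by linarith [hS0 p])
  obtain ⟨x, hx⟩ := Pool.Agent.Helper133.Brouwer.brouwer (fun x => G (ret x))
    (hGcont.comp (continuous_ret hN)) 1 (by
      intro x
      rw [pi_norm_le_iff_of_nonneg zero_le_one]
      intro i
      have h0 := hG0 (ret x) (ret_nonneg hN x)
      have h1 := hG1 (ret x) (ret_sum hN x)
      rw [Real.norm_eq_abs, abs_of_nonneg (h0 i)]
      calc G (ret x) i ≤ ∑ j, G (ret x) j := Finset.single_le_sum (fun j _ => h0 j) (Finset.mem_univ i)
        _ = 1 := h1)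
  have hx0 : ∀ i, 0 ≤ x i := by
    intro i; rw [← hx]; exact hG0 _ (ret_nonneg hN x) i
  have hx1 : ∑ i, x i = 1 := by
    have := hG1 (ret x) (ret_sum hN x)
    have h2 : G (ret x) = x := hx
    rw [h2] at this; exact this
  have hfix : G x = x := by
    have h2 : G (ret x) = x := hx
    rwa [ret_eq x hx0 hx1] at h2
  have hfi : ∀ i, x i * S x = max 0 (1 / N - B x i) := by
    intro i
    have h := congrFun hfix i
    simp only [hG] at h
    have hpos : (0:ℝ) < 1 + S x := by linarith [hS0 x]
    rw [div_eq_iff hpos.ne'] at h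
    linarith
  have hBs := hsum x hx0 hx1
  have hSz : S x = 0 := by
    by_contra hne
    have hpos : 0 < S x := lt_of_le_of_ne (hS0 x) (Ne.symm hne)
    have hall : ∀ i, B x i < 1 / N := by
      intro i
      by_contra hge
      push Not at hge
      have h1 : max 0 (1 / (N:ℝ) - B x i) = 0 := max_eq_left (by linarith)
      have h2 : x i * S x = 0 := by rw [hfi i, h1]
      have h3 : x i = 0 := by
        rcases mul_eq_zero.1 h2 with h | h
        · exact h
        · exact absurd h hne
      have h4 := hbd x hx0 hx1 i h3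
      have : (0:ℝ) < 1 / N := by positivity
      linarith
    have : ∑ i, B x i < ∑ _i : Fin N, (1 / (N:ℝ)) := by
      refine Finset.sum_lt_sum_of_nonempty ?_ (fun i _ => hall i)
      exact ⟨⟨0, hN⟩, Finset.mem_univ _⟩
    rw [hBs] at this
    simp only [Finset.sum_const, Finset.card_univ, Fintype.card_fin, nsmul_eq_mul] at this
    rw [mul_one_div_cancel hN'.ne'] at this
    exact lt_irrefl _ this
  have hge : ∀ i, 1 / (N:ℝ) ≤ B x i := by
    intro i
    have h := hfi i
    rw [hSz, mul_zero] at h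
    have := le_max_right 0 (1 / (N:ℝ) - B x i)
    linarith
  refine ⟨x, hx0, hx1, fun i => ?_⟩
  by_contra hne
  have hlt : 1 / (N:ℝ) < B x i := lt_of_le_of_ne (hge i) (Ne.symm hne)
  have : ∑ _i : Fin N, (1 / (N:ℝ)) < ∑ i, B x i := by
    refine Finset.sum_lt_sum (fun j _ => hge j) ⟨i, Finset.mem_univ _, hlt⟩
  rw [hBs] at this
  simp only [Finset.sum_const, Finset.card_univ, Fintype.card_fin, nsmul_eq_mul] at this
  rw [mul_one_div_cancel hN'.ne'] at this
  exact lt_irrefl _ this

end Pool.Agent.N465.CS
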