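import Mathlib
import Pool.Agent.N465.CS.Kkms
import Pool.Agent.N465.CS.Comb

set_option autoImplicit false

open Finset MeasureTheory

namespace Pool.Agent.N465.CS

lemma measurable_floorvec {N : ℕ} (g : (Fin N → ℤ) → ℝ) (y : Fin N → ℝ) :
    Measurable (fun u : ℝ => g (fun j => ⌊y j + u⌋)) := by
  have h1 : Measurable (fun u : ℝ => (fun j => ⌊y j + u⌋ : Fin N → ℤ)) := by
    refine measurable_pi_lambda _ (fun j => ?_)
    exact Int.measurable_floor.comp (measurable_const.add measurable_id)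
  exact (measurable_of_countable g).comp h1

lemma intervalIntegrable_floorvec {N : ℕ} (g : (Fin N → ℤ) → ℝ) (hg : ∀ z, |g z| ≤ 1)
    (y : Fin N → ℝ) :
    IntervalIntegrable (fun u : ℝ => g (fun j => ⌊y j + u⌋)) volume 0 1 := by
  refine (intervalIntegrable_const (c := (1:ℝ))).mono_fun' (measurable_floorvec g y).aestronglyMeasurable ?_
  refine Filter.Eventually.of_forall (fun u => ?_)
  show ‖g (fun j => ⌊y j + u⌋)‖ ≤ 1
  rw [Real.norm_eq_abs]; exact hg _

/-- partial sums scaled by `L`. -/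
def yp {N : ℕ} (L : ℝ) (p : Fin N → ℝ) (j : Fin N) : ℝ :=
  L * ∑ i ∈ univ.filter (fun i => i < j), p i

lemma continuous_yp {N : ℕ} (L : ℝ) : Continuous (yp L : (Fin N → ℝ) → (Fin N → ℝ)) := by
  refine continuous_pi (fun j => ?_)
  unfold yp
  fun_prop

lemma yp_mono {N : ℕ} {L : ℝ} (hL : 0 ≤ L) {p : Fin N → ℝ} (hp : ∀ i, 0 ≤ p i) {i j : Fin N}
    (hij : i ≤ j) : yp L p i ≤ yp L p j := by
  unfold yp
  refine mul_le_mul_of_nonneg_left ?_ hL
  refine Finset.sum_le_sum_of_subset_of_nonneg ?_ (fun l _ _ => hp l)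
  intro l hl
  simp only [Finset.mem_filter, Finset.mem_univ, true_and] at hl ⊢
  exact lt_of_lt_of_le hl hij

lemma yp_le {N : ℕ} {L : ℝ} (hL : 0 ≤ L) {p : Fin N → ℝ} (hp : ∀ i, 0 ≤ p i)
    (hs : ∑ i, p i = 1) (j : Fin N) : yp L p j + L * p j ≤ L := by
  unfold yp
  have h1 : ∑ i ∈ univ.filter (fun i => i < j), p i + p j ≤ 1 := by
    have h2 : ∑ i ∈ insert j (univ.filter (fun i => i < j)), p i ≤ ∑ i, p i :=
      Finset.sum_le_sum_of_subset_of_nonneg (Finset.subset_univ _) (fun l _ _ => hp l)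
    rw [Finset.sum_insert (by simp)] at h2
    linarith
  nlinarith

/-- If `p i = 0` then `yp (i+1) = yp i`. -/
lemma yp_succ {N : ℕ} {L : ℝ} {p : Fin N → ℝ} {i j : Fin N}
    (hij : (j : ℕ) = (i : ℕ) + 1) (h0 : p i = 0) : yp L p j = yp L p i := by
  unfold yp
  congr 1
  have : univ.filter (fun l : Fin N => l < j) = insert i (univ.filter (fun l => l < i)) := by
    ext l
    simp only [Finset.mem_filter, Finset.mem_univ, true_and, Finset.mem_insert, Fin.lt_def,
      Fin.ext_iff]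
    omega
  rw [this, Finset.sum_insert (by simp), h0, zero_add]

lemma yp_last {N : ℕ} {L : ℝ} {p : Fin N → ℝ} (hs : ∑ i, p i = 1) {i : Fin N}
    (hi : (i : ℕ) + 1 = N) (h0 : p i = 0) : yp L p i = L := by
  unfold yp
  have : (univ : Finset (Fin N)) = insert i (univ.filter (fun l => l < i)) := by
    ext l
    have := l.2
    simp only [Finset.mem_filter, Finset.mem_univ, true_and, Finset.mem_insert, Fin.lt_def,
      Fin.ext_iff, true_iff]
    omega
  have h2 : ∑ l ∈ univ.filter (fun l => l < i), p l = 1 := by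
    rw [← hs]
    conv_rhs => rw [this]
    rw [Finset.sum_insert (by simp), h0, zero_add]
  rw [h2, mul_one]

/-- The integer vector attached to `p` and `u`. -/
noncomputable def zu {N : ℕ} (L : ℝ) (p : Fin N → ℝ) (u : ℝ) : Fin N → ℤ :=
  fun j => ⌊yp L p j + u⌋

lemma zu_valid {n N L : ℕ} (hN : 0 < N) (hn : n = L + N) {p : Fin N → ℝ} (hp : ∀ i, 0 ≤ p i)
    (hs : ∑ i, p i = 1) {u : ℝ} (hu0 : 0 ≤ u) (hu1 : u < 1) : Valid n N (zu (L:ℝ) p u) := by
  have hL : (0:ℝ) ≤ (L:ℝ) := Nat.cast_nonneg _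
  constructor
  · unfold Kz
    rw [dif_pos hN]
    have : yp (L:ℝ) p ⟨0, hN⟩ = 0 := by
      unfold yp
      rw [Finset.filter_false_of_mem, Finset.sum_empty, mul_zero]
      intro i _
      simp [Fin.lt_def]
    simp only [zu, this, zero_add, Nat.cast_zero, add_zero]
    exact Int.floor_eq_zero_iff.2 ⟨hu0, hu1⟩
  · intro j hj
    unfold Kz
    rw [dif_pos hj]
    by_cases hj1 : j + 1 < N
    · rw [dif_pos hj1]
      have h1 : yp (L:ℝ) p ⟨j, hj⟩ ≤ yp (L:ℝ) p ⟨j+1, hj1⟩ := yp_mono hL hp (by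
        simp [Fin.le_def])
      have h2 : ⌊yp (L:ℝ) p ⟨j, hj⟩ + u⌋ ≤ ⌊yp (L:ℝ) p ⟨j+1, hj1⟩ + u⌋ :=
        Int.floor_le_floor (by linarith)
      simp only [zu]
      push_cast
      omega
    · rw [dif_neg hj1]
      have h1 := yp_le hL hp hs ⟨j, hj⟩
      have h2 : yp (L:ℝ) p ⟨j, hj⟩ ≤ L := by
        have := mul_nonneg hL (hp ⟨j, hj⟩)
        linarith
      have h3 : ⌊yp (L:ℝ) p ⟨j, hj⟩ + u⌋ ≤ L := by
        have h4 : ⌊yp (L:ℝ) p ⟨j, hj⟩ + u⌋ < L + 1 := by
          rw [Int.floor_lt]; push_cast; linarith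
        omega
      simp only [zu]
      have : j + 1 = N := by omega
      rw [hn]
      push_cast
      omega

lemma zu_gap {n N L : ℕ} (hn : n = L + N) {p : Fin N → ℝ}
    (hs : ∑ i, p i = 1) {u : ℝ} (hu0 : 0 ≤ u) (hu1 : u < 1) {i : Fin N} (h0 : p i = 0) :
    Kz n N (zu (L:ℝ) p u) ((i : ℕ) + 1) - Kz n N (zu (L:ℝ) p u) (i : ℕ) = 1 := by
  unfold Kz
  rw [dif_pos i.2]
  by_cases hj1 : (i : ℕ) + 1 < N
  · rw [dif_pos hj1]
    have h1 : yp (L:ℝ) p ⟨(i:ℕ)+1, hj1⟩ = yp (L:ℝ) p i := yp_succ rfl h0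
    simp only [zu, h1, Fin.eta]
    push_cast
    omega
  · rw [dif_neg hj1]
    have hi : (i : ℕ) + 1 = N := by have := i.2; omega
    have h1 : yp (L:ℝ) p i = L := yp_last hs hi h0
    simp only [zu, h1, Fin.eta]
    have h2 : ⌊(L:ℝ) + u⌋ = L := by
      rw [Int.floor_eq_iff]
      push_cast
      constructor <;> linarith
    rw [h2, hn]
    push_cast
    omega

lemma zu_close {n N : ℕ} {L : ℝ} {p : Fin N → ℝ} {u : ℝ} (hu0 : 0 ≤ u) (hu1 : u < 1) (j : ℕ) :
    Kz n N (zu L p 0) j ≤ Kz n N (zu L p u) j ∧ Kz n N (zu L p u) j ≤ Kz n N (zu L p 0) j + 1 := by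
  unfold Kz
  by_cases h : j < N
  · simp only [dif_pos h, zu]
    have h1 : ⌊yp L p ⟨j, h⟩ + 0⌋ ≤ ⌊yp L p ⟨j, h⟩ + u⌋ := Int.floor_le_floor (by linarith)
    have h2 : ⌊yp L p ⟨j, h⟩ + u⌋ ≤ ⌊yp L p ⟨j, h⟩ + 0⌋ + 1 := by
      have h3 : ⌊yp L p ⟨j, h⟩ + u⌋ ≤ ⌊yp L p ⟨j, h⟩ + 0 + 1⌋ := Int.floor_le_floor (by linarith)
      rw [Int.floor_add_one] at h3
      exact h3
    omega
  · simp only [dif_neg h]
    omega

/-- The main case: all edges have at least `k + 1` vertices and `n ≥ k^2 + k + 1`. -/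
theorem main_case {n k L : ℕ} (hk : 1 ≤ k) (hn : n = L + (k ^ 2 + k + 1))
    (H : Finset (Finset (Fin n)))
    (hH : ∀ e ∈ H, ∀ f ∈ H, e ≠ f → k ≤ (e ∩ f).card)
    (hbig : ∀ e ∈ H, k + 1 ≤ e.card) :
    ∃ col : Fin n → Fin (k ^ 2 + k + 1), ∀ e ∈ H, k + 1 ≤ (e.image col).card := by
  classical
  by_contra hcon
  push Not at hcon
  set N := k ^ 2 + k + 1 with hNdef
  have hN : 0 < N := by positivity
  have hbad : ∀ z : Fin N → ℤ, ∃ c : Fin n → Fin N, ∃ e : Finset (Fin n), Valid n N z →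
      IsCol n N z c ∧ e ∈ H ∧ (e.image c).card ≤ k := by
    intro z
    by_cases hz : Valid n N z
    · obtain ⟨c, hc⟩ := exists_col hz
      obtain ⟨e, he, hek⟩ := hcon c
      exact ⟨c, e, fun _ => ⟨hc, he, by omega⟩⟩
    · exact ⟨fun _ => ⟨0, hN⟩, ∅, fun h => absurd h hz⟩
  choose C E hCE using hbad
  -- labels and fat labels
  set I : (Fin N → ℤ) → Finset (Fin N) := fun z => (E z).image (C z) with hI
  set F : (Fin N → ℤ) → Finset (Fin N) := fun z =>
    (I z).filter (fun i => 2 ≤ Kz n N z ((i : ℕ) + 1) - Kz n N z (i : ℕ)) with hF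
  have hFI : ∀ z, F z ⊆ I z := fun z => Finset.filter_subset _ _
  have hFcard : ∀ z, Valid n N z → (F z).card ≤ k := fun z hz =>
    le_trans (Finset.card_le_card (hFI z)) (hCE z hz).2.2
  have hFne : ∀ z, Valid n N z → (F z).Nonempty := by
    intro z hz
    obtain ⟨hc, he, hek⟩ := hCE z hz
    have hlt : ((E z).image (C z)).card < (E z).card := by
      have := hbig _ he
      omega
    obtain ⟨v, hv, w, hw, hvw, hcvw⟩ := Finset.exists_ne_map_eq_of_card_image_lt hlt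
    refine ⟨C z v, Finset.mem_filter.2 ⟨Finset.mem_image_of_mem _ hv, ?_⟩⟩
    have h1 := hc v
    have h2 := hc w
    rw [← hcvw] at h2
    have h3 : (v : ℕ) ≠ (w : ℕ) := fun h => hvw (Fin.ext h)
    omega
  set g : Fin N → (Fin N → ℤ) → ℝ := fun i z =>
    if i ∈ F z then 1 / ((F z).card : ℝ) else 0 with hg
  have hg0 : ∀ i z, 0 ≤ g i z := by
    intro i z
    simp only [hg]
    split_ifs
    · positivity
    · exact le_refl _
  have hg1 : ∀ i z, |g i z| ≤ 1 := by
    intro i z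
    rw [abs_of_nonneg (hg0 i z)]
    simp only [hg]
    split_ifs with h
    · have : 1 ≤ (F z).card := Finset.card_pos.2 ⟨i, h⟩
      have h2 : (1:ℝ) ≤ (F z).card := by exact_mod_cast this
      rw [div_le_one (by linarith)]
      exact h2
    · exact zero_le_one
  have hgsum : ∀ z, Valid n N z → ∑ i, g i z = 1 := by
    intro z hz
    simp only [hg]
    rw [Finset.sum_ite_mem, Finset.univ_inter, Finset.sum_const, nsmul_eq_mul]
    have : 0 < (F z).card := Finset.card_pos.2 (hFne z hz)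
    have h2 : (0:ℝ) < (F z).card := by exact_mod_cast this
    field_simp
  -- the function B
  set B : (Fin N → ℝ) → Fin N → ℝ := fun p i => ∫ u in (0:ℝ)..1, g i (zu (L:ℝ) p u) with hB
  have hBcont : Continuous B := by
    refine continuous_pi (fun i => ?_)
    exact (continuous_avg (g i) (hg1 i)).comp (continuous_yp (L:ℝ))
  have hint : ∀ i p, IntervalIntegrable (fun u : ℝ => g i (zu (L:ℝ) p u)) volume 0 1 := by
    intro i p
    exact intervalIntegrable_floorvec (g i) (hg1 i) (yp (L:ℝ) p)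
  have hBsum : ∀ p : Fin N → ℝ, (∀ i, 0 ≤ p i) → ∑ i, p i = 1 → ∑ i, B p i = 1 := by
    intro p hp hs
    simp only [hB]
    rw [← intervalIntegral.integral_finsetSum (fun i _ => hint i p)]
    have h1 : ∫ u in (0:ℝ)..1, ∑ i, g i (zu (L:ℝ) p u) = ∫ u in (0:ℝ)..1, (1:ℝ) := by
      refine intervalIntegral.integral_congr_ae ?_
      have h0 : ∀ᵐ u : ℝ ∂volume, u ≠ 1 := by
        exact compl_mem_ae_iff.2 (measure_singleton (1:ℝ))
      filter_upwards [h0] with u hu hu'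
      rw [Set.uIoc_of_le zero_le_one] at hu'
      exact hgsum _ (zu_valid hN hn hp hs hu'.1.le (lt_of_le_of_ne hu'.2 hu))
    rw [h1]
    simp
  have hBbd : ∀ p : Fin N → ℝ, (∀ i, 0 ≤ p i) → ∑ i, p i = 1 → ∀ i, p i = 0 → B p i = 0 := by
    intro p hp hs i h0
    simp only [hB]
    have h1 : ∫ u in (0:ℝ)..1, g i (zu (L:ℝ) p u) = ∫ u in (0:ℝ)..1, (0:ℝ) := by
      refine intervalIntegral.integral_congr_ae ?_
      have h0' : ∀ᵐ u : ℝ ∂volume, u ≠ 1 := by
        exact compl_mem_ae_iff.2 (measure_singleton (1:ℝ))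
      filter_upwards [h0'] with u hu hu'
      rw [Set.uIoc_of_le zero_le_one] at hu'
      have hgap := zu_gap (n := n) hn hs hu'.1.le (lt_of_le_of_ne hu'.2 hu) h0
      simp only [hg]
      rw [if_neg]
      intro hmem
      have := (Finset.mem_filter.1 hmem).2
      omega
    rw [h1]
    simp
  obtain ⟨p, hp, hs, hpB⟩ := exists_balanced hN B hBcont hBsum hBbd
  -- the base label
  have hv0 : Valid n N (zu (L:ℝ) p 0) := zu_valid hN hn hp hs le_rfl zero_lt_one
  set P : Finset (Fin N) := I (zu (L:ℝ) p 0) with hP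
  set Q : Finset (Fin N) := univ.filter (fun i => i ∉ P ∧ ∃ j ∈ P, (j : ℕ) = (i : ℕ) + 1) with hQ
  have hPk : P.card ≤ k := (hCE _ hv0).2.2
  have hQk : Q.card ≤ k := by
    refine le_trans ?_ hPk
    have : ∀ i ∈ Q, ∃ j ∈ P, (j : ℕ) = (i : ℕ) + 1 := fun i hi => (Finset.mem_filter.1 hi).2.2
    choose! f hf1 hf2 using this
    refine Finset.card_le_card_of_injOn f (fun i hi => hf1 i hi) ?_
    intro i hi j hj hij
    have h1 := hf2 i hi
    have h2 := hf2 j hj
    rw [hij] at h1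
    exact Fin.ext (by omega)
  have hk' : (1:ℝ) ≤ k := by exact_mod_cast hk
  have hpt : ∀ u : ℝ, 0 ≤ u → u < 1 →
      1 ≤ (k:ℝ) * ∑ i ∈ P, g i (zu (L:ℝ) p u) + ∑ i ∈ Q, g i (zu (L:ℝ) p u) := by
    intro u hu0 hu1
    have hvu : Valid n N (zu (L:ℝ) p u) := zu_valid hN hn hp hs hu0 hu1
    set z := zu (L:ℝ) p u with hz
    by_cases hcase : ∃ i ∈ F z, i ∈ P
    · obtain ⟨i, hiF, hiP⟩ := hcase
      have h1 : g i z ≤ ∑ i ∈ P, g i z := Finset.single_le_sum (fun j _ => hg0 j z) hiP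
      have h2 : 0 ≤ ∑ i ∈ Q, g i z := Finset.sum_nonneg (fun j _ => hg0 j z)
      have h3 : g i z = 1 / ((F z).card : ℝ) := by simp only [hg]; rw [if_pos hiF]
      have h4 : ((F z).card : ℝ) ≤ k := by exact_mod_cast hFcard z hvu
      have h5 : 0 < (F z).card := Finset.card_pos.2 ⟨i, hiF⟩
      have h5' : (0:ℝ) < (F z).card := by exact_mod_cast h5
      have h6 : 1 ≤ (k:ℝ) * g i z := by
        rw [h3, mul_one_div, le_div_iff₀ h5']
        linarith
      nlinarith
    · push Not at hcase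
      have hFQ : F z ⊆ Q := by
        intro i hi
        obtain ⟨hc0, he0, hk0⟩ := hCE _ hv0
        obtain ⟨hcu, heu, hku⟩ := hCE _ hvu
        have hAB : k ≤ (E (zu (L:ℝ) p 0) ∩ E z).card := by
          by_cases heq : E (zu (L:ℝ) p 0) = E z
          · rw [heq, Finset.inter_self]
            have := hbig _ heu
            omega
          · exact hH _ he0 _ heu heq
        have hcl : ∀ j, _ := fun j => zu_close (n := n) (L := (L:ℝ)) (p := p) hu0 hu1 j
        have hmain := comb hv0 (fun j => (hcl j).1) (fun j => (hcl j).2) hc0 hcu hAB hku (by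
          intro i hi hi2 hiA
          exact hcase i (Finset.mem_filter.2 ⟨hi, hi2⟩) hiA)
        have hi' := Finset.mem_filter.1 hi
        refine Finset.mem_filter.2 ⟨Finset.mem_univ _, hcase i hi, ?_⟩
        exact hmain i hi'.1 hi'.2
      have h1 : ∑ i ∈ Q, g i z = 1 := by
        rw [← hgsum z hvu]
        refine Finset.sum_subset (Finset.subset_univ _) (fun i _ hi => ?_)
        simp only [hg]
        rw [if_neg (fun h => hi (hFQ h))]
      have h2 : 0 ≤ ∑ i ∈ P, g i z := Finset.sum_nonneg (fun j _ => hg0 j z)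
      rw [h1]
      have := mul_nonneg (by linarith : (0:ℝ) ≤ k) h2
      linarith
  have hintP : IntervalIntegrable (fun u : ℝ => ∑ i ∈ P, g i (zu (L:ℝ) p u)) volume 0 1 := by
    have h := IntervalIntegrable.sum P (f := fun i u => g i (zu (L:ℝ) p u)) (fun i _ => hint i p)
    have h' : (fun u : ℝ => ∑ i ∈ P, g i (zu (L:ℝ) p u)) = ∑ i ∈ P, (fun u : ℝ => g i (zu (L:ℝ) p u)) := by
      funext u; simp
    rw [h']; exact h
  have hintQ : IntervalIntegrable (fun u : ℝ => ∑ i ∈ Q, g i (zu (L:ℝ) p u)) volume 0 1 := by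
    have h := IntervalIntegrable.sum Q (f := fun i u => g i (zu (L:ℝ) p u)) (fun i _ => hint i p)
    have h' : (fun u : ℝ => ∑ i ∈ Q, g i (zu (L:ℝ) p u)) = ∑ i ∈ Q, (fun u : ℝ => g i (zu (L:ℝ) p u)) := by
      funext u; simp
    rw [h']; exact h
  have hfin : (1:ℝ) ≤ (k:ℝ) * ∑ i ∈ P, B p i + ∑ i ∈ Q, B p i := by
    have h1 : (k:ℝ) * ∑ i ∈ P, B p i + ∑ i ∈ Q, B p i =
        ∫ u in (0:ℝ)..1, ((k:ℝ) * ∑ i ∈ P, g i (zu (L:ℝ) p u) + ∑ i ∈ Q, g i (zu (L:ℝ) p u)) := by
      rw [intervalIntegral.integral_add (hintP.const_mul _) hintQ,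
        intervalIntegral.integral_const_mul,
        intervalIntegral.integral_finsetSum (fun i _ => hint i p),
        intervalIntegral.integral_finsetSum (fun i _ => hint i p)]
    have h2 : (1:ℝ) = ∫ u in (0:ℝ)..1, (1:ℝ) := by simp
    rw [h1]
    conv_lhs => rw [h2]
    refine intervalIntegral.integral_mono_on_of_le_Ioo zero_le_one intervalIntegrable_const
      ((hintP.const_mul _).add hintQ) ?_
    intro u hu
    exact hpt u hu.1.le hu.2
  simp only [hpB, Finset.sum_const, nsmul_eq_mul] at hfin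
  have hN' : (0:ℝ) < N := by exact_mod_cast hN
  have h3 : (N:ℝ) ≤ k * P.card + Q.card := by
    have h4 : (k:ℝ) * (P.card * (1 / N)) + Q.card * (1 / N) = (k * P.card + Q.card) / N := by
      field_simp
    rw [h4, le_div_iff₀ hN', one_mul] at hfin
    exact hfin
  have h5 : N ≤ k * P.card + Q.card := by exact_mod_cast h3
  have h6 : k * P.card ≤ k * k := Nat.mul_le_mul_left _ hPk
  have h7 : k * k = k ^ 2 := by ring
  omega

end Pool.Agent.N465.CS
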